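import Mathlib

/-! # Interface: Durfee's inequality for all convenient Newton boundaries

Every module is a statement `XStatement : Prop`; it is to be proved as
`theorem x (h : UsedStatement) ... : XStatement`.  Proofs: `Paper.md`. -/

set_option autoImplicit false
set_option linter.unusedSectionVars false

namespace Pool.Agent.DUR

open Finset
open scoped Pointwise

/-! ## Part 0. Vectors -/

abbrev V3 := Fin 3 → ℤ
abbrev E3 := Fin 3 → ℝ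
/-- Oriented triangles (unimodular cones with an order of the rays). -/
abbrev Tri := V3 × V3 × V3

def dot (a b : V3) : ℤ := a 0 * b 0 + a 1 * b 1 + a 2 * b 2

def cross (a b : V3) : V3 :=
  ![a 1 * b 2 - a 2 * b 1, a 2 * b 0 - a 0 * b 2, a 0 * b 1 - a 1 * b 0]

def det3 (a b c : V3) : ℤ := dot (cross a b) c

def deg (a : V3) : ℤ := a 0 + a 1 + a 2

def ev (i : Fin 3) : V3 := Pi.single i 1

/-- Pairing of a lattice vector with a real vector. -/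
def rd (n : V3) (x : E3) : ℝ := (n 0 : ℝ) * x 0 + (n 1 : ℝ) * x 1 + (n 2 : ℝ) * x 2

/-- `det (a, b, x)`. If `det3 a b c = 1` then `x = W b c x • a + W c a x • b + W a b x • c`. -/
def W (a b : V3) (x : E3) : ℝ := rd (cross a b) x

/-- Generic real vectors. -/
def Gen (x : E3) : Prop := ∀ n : V3, n ≠ 0 → rd n x ≠ 0

def Pos (x : E3) : Prop := ∀ i, 0 < x i

open Classical in
noncomputable def pp (x : ℝ) : ℝ := if 0 < x then 1 else 0

noncomputable def kap (a b : V3) : ℝ :=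
  3 - (deg a : ℝ) / (deg b : ℝ) - (deg b : ℝ) / (deg a : ℝ)

/-! ## Part 1. Unimodular fans obtained by star subdivisions -/

def has (a : V3) (t : Tri) : Prop := t.1 = a ∨ t.2.1 = a ∨ t.2.2 = a

instance (a : V3) (t : Tri) : Decidable (has a t) := by unfold has; infer_instance

/-- Replace the vertex `a` by `c`. -/
def rp (a c : V3) (t : Tri) : Tri :=
  (if t.1 = a then c else t.1, if t.2.1 = a then c else t.2.1, if t.2.2 = a then c else t.2.2)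

/-- Star subdivision at the pair `{a, b}`; the new ray is `a + b`. -/
def star (a b : V3) (T : Finset Tri) : Finset Tri :=
  (T.filter fun t => ¬ (has a t ∧ has b t)) ∪
    (T.filter fun t => has a t ∧ has b t).image (rp a (a + b)) ∪
    (T.filter fun t => has a t ∧ has b t).image (rp b (a + b))

/-- The positive octant. -/
def T0 : Finset Tri := {(ev 0, ev 1, ev 2), (ev 1, ev 2, ev 0), (ev 2, ev 0, ev 1)}

inductive IsFan : Finset Tri → Prop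
  | base : IsFan T0
  | step {T : Finset Tri} {a b c : V3} (h : IsFan T) (hab : (a, b, c) ∈ T) : IsFan (star a b T)

/-- The rays. -/
def rays (T : Finset Tri) : Finset V3 := T.image fun t => t.1

/-- The combinatorial invariants of the fans.  A cone is represented by its three rotations. -/
structure Good (T : Finset Tri) : Prop where
  rot : ∀ a b c, (a, b, c) ∈ T → (b, c, a) ∈ T
  det1 : ∀ a b c, (a, b, c) ∈ T → det3 a b c = 1
  nn : ∀ a b c, (a, b, c) ∈ T → ∀ i, 0 ≤ a i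
  uniq : ∀ a b c d, (a, b, c) ∈ T → (a, b, d) ∈ T → c = d
  opp : ∀ a b c, (a, b, c) ∈ T → (∃ i, a i = 0 ∧ b i = 0) ∨ ∃ d, (b, a, d) ∈ T
  base : ∀ i, ∃ b c, (ev i, b, c) ∈ T
  n1 : ∀ a ∈ rays T, ∀ x : E3, Gen x → Pos x →
    ∑ t ∈ T with t.1 = a, pp (W t.1 t.2.1 x) * pp (W t.2.2 t.1 x) = 1
  n3 : ∀ x : E3, Gen x → Pos x →
    ∑ t ∈ T, pp (W t.1 t.2.1 x) * pp (W t.2.1 t.2.2 x) * pp (W t.2.2 t.1 x) = 3
  cover : ∀ x : E3, (∀ i, 0 ≤ x i) →
    ∃ t ∈ T, 0 ≤ W t.1 t.2.1 x ∧ 0 ≤ W t.2.1 t.2.2 x ∧ 0 ≤ W t.2.2 t.1 x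
  bdk : ∀ i : Fin 3, ∑ t ∈ T with t.1 i = 0 ∧ t.2.1 i = 0, kap t.1 t.2.1 = 1

/-- GENS. Generic points are dense. -/
def GensStatement : Prop := ∀ U : Set E3, IsOpen U → U.Nonempty → ∃ x ∈ U, Gen x

/-- FRSH. The new ray `a + b` is new. -/
def FrshStatement : Prop :=
  ∀ (T : Finset Tri) (a b c : V3), Good T → (a, b, c) ∈ T → ∀ t ∈ T, ¬ has (a + b) t

/-- SSUM. Sums over a star subdivision. -/
def SsumStatement : Prop :=
  ∀ (T : Finset Tri) (a b c : V3), (a, b, c) ∈ T → (∀ x y z, (x, y, z) ∈ T → det3 x y z = 1) →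
    (∀ t ∈ T, ¬ has (a + b) t) → ∀ f : Tri → ℝ,
    ∑ t ∈ star a b T, f t =
      ∑ t ∈ T, if has a t ∧ has b t then f (rp a (a + b) t) + f (rp b (a + b) t) else f t

/-- STRA. The elementary invariants are preserved. -/
def StraStatement : Prop :=
  ∀ (T : Finset Tri) (a b c : V3), Good T → (a, b, c) ∈ T → (∀ t ∈ T, ¬ has (a + b) t) →
    (∀ x y z, (x, y, z) ∈ star a b T → (y, z, x) ∈ star a b T) ∧
    (∀ x y z, (x, y, z) ∈ star a b T → det3 x y z = 1) ∧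
    (∀ x y z, (x, y, z) ∈ star a b T → ∀ i, 0 ≤ x i) ∧
    (∀ i, ∃ y z, (ev i, y, z) ∈ star a b T)

/-- STRB. The adjacency invariants are preserved. -/
def StrbStatement : Prop :=
  ∀ (T : Finset Tri) (a b c : V3), Good T → (a, b, c) ∈ T → (∀ t ∈ T, ¬ has (a + b) t) →
    (∀ x y z w, (x, y, z) ∈ star a b T → (x, y, w) ∈ star a b T → z = w) ∧
    (∀ x y z, (x, y, z) ∈ star a b T →
      (∃ i, x i = 0 ∧ y i = 0) ∨ ∃ w, (y, x, w) ∈ star a b T)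

/-- STRC. The covering property is preserved. -/
def StrcStatement : Prop :=
  ∀ (T : Finset Tri) (a b c : V3), Good T → (a, b, c) ∈ T →
    ∀ x : E3, (∀ i, 0 ≤ x i) →
    ∃ t ∈ star a b T, 0 ≤ W t.1 t.2.1 x ∧ 0 ≤ W t.2.1 t.2.2 x ∧ 0 ≤ W t.2.2 t.1 x

/-- STR1. -/
def Str1Statement : Prop :=
  ∀ (T : Finset Tri) (a b c : V3), Good T → (a, b, c) ∈ T → (∀ t ∈ T, ¬ has (a + b) t) →
    ∀ r ∈ rays (star a b T), ∀ x : E3, Gen x → Pos x →
    ∑ t ∈ star a b T with t.1 = r, pp (W t.1 t.2.1 x) * pp (W t.2.2 t.1 x) = 1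

/-- STR3. -/
def Str3Statement : Prop :=
  ∀ (T : Finset Tri) (a b c : V3), Good T → (a, b, c) ∈ T → (∀ t ∈ T, ¬ has (a + b) t) →
    ∀ x : E3, Gen x → Pos x →
    ∑ t ∈ star a b T, pp (W t.1 t.2.1 x) * pp (W t.2.1 t.2.2 x) * pp (W t.2.2 t.1 x) = 3

/-- STRK. -/
def StrkStatement : Prop :=
  ∀ (T : Finset Tri) (a b c : V3), Good T → (a, b, c) ∈ T → (∀ t ∈ T, ¬ has (a + b) t) →
    ∀ i : Fin 3, ∑ t ∈ star a b T with t.1 i = 0 ∧ t.2.1 i = 0, kap t.1 t.2.1 = 1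

/-- GOOD. -/
def GoodStatement : Prop := ∀ T : Finset Tri, IsFan T → Good T

/-- `d` has a constant sign on every cone of `T`. -/
def Cmp (T : Finset Tri) (d : V3) : Prop :=
  ∀ t ∈ T, (∀ r, has r t → 0 ≤ dot d r) ∨ (∀ r, has r t → dot d r ≤ 0)

/-- PAIR. One linear form can be made of constant sign on all cones by star subdivisions. -/
def PairStatement : Prop :=
  ∀ (T : Finset Tri) (d : V3), IsFan T →
    ∃ T', IsFan T' ∧ Cmp T' d ∧ ∀ d' : V3, Cmp T d' → Cmp T' d'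

/-- ADPT. -/
def AdptStatement : Prop :=
  ∀ A : Finset V3, ∃ T, IsFan T ∧ ∀ v ∈ A, ∀ w ∈ A, Cmp T (v - w)

/-! ## Part 2. The count -/

/-- Admissible piecewise linear data on a fan: `v t` is the linear form that agrees with `l` on
the cone `t`, `l` is the minimum of the `v t` on the rays, and `l` vanishes on boundary rays. -/
structure Adm (T : Finset Tri) (l : V3 → ℤ) (v : Tri → V3) : Prop where
  good : Good T
  eq : ∀ t ∈ T, ∀ r, has r t → dot (v t) r = l r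
  le : ∀ t ∈ T, ∀ r ∈ rays T, l r ≤ dot (v t) r
  bd : ∀ r ∈ rays T, (∃ i, r i = 0) → l r = 0

open Classical in
noncomputable def bb (l : V3 → ℤ) (m r : V3) : ℝ := if dot m r ≤ l r then 1 else 0

/-- The Lawrence–Varchenko term of the cone `t` at the lattice point `m`. -/
noncomputable def lvt (l : V3 → ℤ) (x : E3) (m : V3) (t : Tri) : ℝ :=
  (pp (W t.2.1 t.2.2 x) - bb l m t.1) * (pp (W t.2.2 t.1 x) - bb l m t.2.1) *
    (pp (W t.1 t.2.1 x) - bb l m t.2.2)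

/-- LVIN. The sum of the Lawrence–Varchenko terms does not depend on the generic vector. -/
def LvinStatement : Prop :=
  ∀ (T : Finset Tri) (l : V3 → ℤ), Good T → ∀ (x y : E3), Gen x → Pos x → Gen y → Pos y →
    ∀ m : V3, ∑ t ∈ T, lvt l x m t = ∑ t ∈ T, lvt l y m t

/-- LVBD. If `m` is bad then all terms vanish for a suitable generic vector. -/
def LvbdStatement : Prop :=
  ∀ (T : Finset Tri) (l : V3 → ℤ) (v : Tri → V3), Adm T l v → ∀ m : V3,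
    (∃ r ∈ rays T, dot m r ≤ l r) → ∃ y : E3, Gen y ∧ Pos y ∧ ∀ t ∈ T, lvt l y m t = 0

open Classical in
/-- LVSM. -/
def LvsmStatement : Prop :=
  ∀ (T : Finset Tri) (l : V3 → ℤ) (v : Tri → V3), Adm T l v → ∀ x : E3, Gen x → Pos x →
    ∀ m : V3, ∑ t ∈ T, lvt l x m t = if ∀ r ∈ rays T, l r < dot m r then 3 else 0

/-- SERA. The one-dimensional series. -/
def SeraStatement : Prop :=
  ∀ (s x : ℝ) (k : ℤ), 0 < s → x ≠ 0 →
    HasSum (fun n : ℤ => Real.exp (-(s * x * n)) * (pp x - if n ≤ k then 1 else 0))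
      (Real.exp (-(s * x * k)) / (Real.exp (s * x) - 1)) ∧
    Summable (fun n : ℤ => |Real.exp (-(s * x * n)) * (pp x - if n ≤ k then 1 else 0)|)

/-- The value of the piecewise linear function `l` on the cone `t`, continued linearly. -/
noncomputable def gg (l : V3 → ℤ) (x : E3) (t : Tri) : ℝ :=
  W t.2.1 t.2.2 x * l t.1 + W t.2.2 t.1 x * l t.2.1 + W t.1 t.2.1 x * l t.2.2

/-- SERB. The series of a cone. -/
def SerbStatement : Prop :=
  ∀ (l : V3 → ℤ) (x : E3) (t : Tri) (s : ℝ), det3 t.1 t.2.1 t.2.2 = 1 → Gen x → 0 < s →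
    HasSum (fun m : V3 => Real.exp (-(s * rd m x)) * lvt l x m t)
      (Real.exp (-(s * gg l x t)) / ((Real.exp (s * W t.2.1 t.2.2 x) - 1) *
        (Real.exp (s * W t.2.2 t.1 x) - 1) * (Real.exp (s * W t.1 t.2.1 x) - 1)))

noncomputable def phi (g x y z : ℝ) : ℝ :=
  (g ^ 3 / 6 + g ^ 2 * (x + y + z) / 4 +
    g * (x ^ 2 + y ^ 2 + z ^ 2 + 3 * (x * y + y * z + z * x)) / 12) / (x * y * z)

/-- EXPD. The constant term at `s = 0`. -/
def ExpdStatement : Prop :=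
  ∀ (S : Finset Tri) (g x y z : Tri → ℝ) (L : ℝ),
    (∀ t ∈ S, x t ≠ 0 ∧ y t ≠ 0 ∧ z t ≠ 0) →
    Filter.Tendsto (fun s : ℝ => ∑ t ∈ S, (1 - Real.exp (-(s * g t))) /
      ((Real.exp (s * x t) - 1) * (Real.exp (s * y t) - 1) * (Real.exp (s * z t) - 1)))
      (nhdsWithin 0 (Set.Ioi 0)) (nhds L) →
    L = ∑ t ∈ S, phi (g t) (x t) (y t) (z t)

/-- The positive lattice points that are not interior points of the polyhedron. -/
def BB (T : Finset Tri) (l : V3 → ℤ) : Set V3 :=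
  {m | (∀ i, 0 < m i) ∧ ∃ r ∈ rays T, dot m r ≤ l r}

/-- CNTX. The count as a sum over the cones. -/
def CntxStatement : Prop :=
  ∀ (T : Finset Tri) (l : V3 → ℤ) (v : Tri → V3), Adm T l v → ∀ x : E3, Gen x → Pos x →
    (BB T l).Finite ∧ 3 * ((BB T l).ncard : ℝ) =
      ∑ t ∈ T, phi (gg l x t) (W t.2.1 t.2.2 x) (W t.2.2 t.1 x) (W t.1 t.2.1 x)

/-! ## Part 3. Intersection numbers -/

/-- The vertex on the left of the directed edge `a → b` (zero outside of the octant). -/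
def vE (T : Finset Tri) (v : Tri → V3) (a b : V3) : V3 :=
  ∑ t ∈ T with t.1 = a ∧ t.2.1 = b, v t

open Classical in
/-- The lattice length attached to the pair `{a, b}`. -/
noncomputable def Lw (T : Finset Tri) (v : Tri → V3) (a b : V3) : ℤ :=
  if ∃ c, (a, b, c) ∈ T then
    ∑ t ∈ T with t.1 = a ∧ t.2.1 = b, dot (vE T v b a - vE T v a b) t.2.2
  else ∑ t ∈ T with t.1 = b ∧ t.2.1 = a, dot (vE T v a b - vE T v b a) t.2.2

/-- EDGE. -/
def EdgeStatement : Prop :=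
  ∀ (T : Finset Tri) (l : V3 → ℤ) (v : Tri → V3), Adm T l v →
    (∀ a b, Lw T v a b = Lw T v b a) ∧
    (∀ a b, Lw T v a b ≠ 0 → (∃ c, (a, b, c) ∈ T) ∨ ∃ c, (b, a, c) ∈ T) ∧
    (∀ a b c, (a, b, c) ∈ T → vE T v a b = v (a, b, c)) ∧
    (∀ a b c, (a, b, c) ∈ T → v (b, c, a) = v (a, b, c)) ∧
    (∀ a b c, (a, b, c) ∈ T → vE T v b a - vE T v a b = Lw T v a b • cross a b)

/-- The self-intersection numbers (with the opposite sign) `e`. -/
def Bal (T : Finset Tri) (v : Tri → V3) (e : V3 → ℤ) : Prop :=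
  ∀ a ∈ rays T, ∑ b ∈ rays T, Lw T v a b • b = e a • a

/-- BALA. -/
def BalaStatement : Prop :=
  ∀ (T : Finset Tri) (l : V3 → ℤ) (v : Tri → V3), Adm T l v → ∃ e : V3 → ℤ, Bal T v e

/-- The normalized area of the face of the ray `a`. -/
noncomputable def Ar (T : Finset Tri) (l : V3 → ℤ) (v : Tri → V3) (e : V3 → ℤ) (a : V3) : ℤ :=
  e a * l a - ∑ b ∈ rays T, Lw T v a b * l b

/-- BRKA. The numbers `[ξ_a ξ_b g]`, `[ξ_a g]`, `[ξ_a² g]` of a ray `a`. -/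
def BrkaStatement : Prop :=
  ∀ (T : Finset Tri) (l : V3 → ℤ) (v : Tri → V3) (e : V3 → ℤ), Adm T l v → Bal T v e →
    ∀ x : E3, Gen x → Pos x → ∀ a ∈ rays T,
    (∑ t ∈ T with t.1 = a, gg l x t / (W t.1 t.2.1 x * W t.2.2 t.1 x) = 0) ∧
    (∑ t ∈ T with t.1 = a, gg l x t * W t.2.1 t.2.2 x / (W t.1 t.2.1 x * W t.2.2 t.1 x) = e a) ∧
    (∑ t ∈ T with t.1 = a, gg l x t ^ 2 / (W t.1 t.2.1 x * W t.2.2 t.1 x) = Ar T l v e a)

/-- BRKB. Sums over edges. -/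
def BrkbStatement : Prop :=
  ∀ (T : Finset Tri) (l : V3 → ℤ) (v : Tri → V3), Adm T l v →
    ∀ x : E3, Gen x → Pos x → ∀ f : V3 → V3 → ℝ, (∀ a b, f a b = f b a) →
    ∑ t ∈ T, f t.1 t.2.1 * gg l x t / W t.1 t.2.1 x =
      -(1 / 2) * ∑ a ∈ rays T, ∑ b ∈ rays T, f a b * Lw T v a b

/-- BRKC. -/
def BrkcStatement : Prop :=
  ∀ (T : Finset Tri) (l : V3 → ℤ) (v : Tri → V3) (e : V3 → ℤ), Adm T l v → Bal T v e →
    ∀ x : E3, Gen x → Pos x →
    4 * ∑ t ∈ T, phi (gg l x t) (W t.2.1 t.2.2 x) (W t.2.2 t.1 x) (W t.1 t.2.1 x) =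
      2 * ∑ a ∈ rays T, (l a : ℝ) * Ar T l v e a + 3 * ∑ a ∈ rays T, (Ar T l v e a : ℝ) -
        (1 / 2) * ∑ a ∈ rays T, ∑ b ∈ rays T, kap a b * Lw T v a b

/-- CNTT. The count formula. -/
def CnttStatement : Prop :=
  ∀ (T : Finset Tri) (l : V3 → ℤ) (v : Tri → V3) (e : V3 → ℤ), Adm T l v → Bal T v e →
    (BB T l).Finite ∧ 12 * ((BB T l).ncard : ℝ) =
      2 * ∑ a ∈ rays T, (l a : ℝ) * Ar T l v e a + 3 * ∑ a ∈ rays T, (Ar T l v e a : ℝ) -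
        (1 / 2) * ∑ a ∈ rays T, ∑ b ∈ rays T, kap a b * Lw T v a b

/-- DILA. Dilations. -/
def DilaStatement : Prop :=
  ∀ (T : Finset Tri) (l : V3 → ℤ) (v : Tri → V3) (e : V3 → ℤ) (k : ℕ), Adm T l v → Bal T v e →
    12 * ((BB T (fun a => k * l a)).ncard : ℝ) =
      2 * (k : ℝ) ^ 3 * ∑ a ∈ rays T, (l a : ℝ) * Ar T l v e a +
        3 * (k : ℝ) ^ 2 * ∑ a ∈ rays T, (Ar T l v e a : ℝ) -
        (k : ℝ) * ((1 / 2) * ∑ a ∈ rays T, ∑ b ∈ rays T, kap a b * Lw T v a b)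

/-! ## Part 4. Newton polyhedra -/

/-- The support function. -/
noncomputable def ell (A : Finset V3) (k : V3) : ℤ :=
  if h : A.Nonempty then A.inf' h (fun v => dot v k) else 0

/-- `T` and `v` belong to the Newton polyhedron of `A`. -/
structure NP (A : Finset V3) (T : Finset Tri) (v : Tri → V3) : Prop where
  good : Good T
  nn : ∀ u ∈ A, ∀ i, 0 ≤ u i
  conv : ∀ i, ∃ n : ℤ, 0 < n ∧ n • ev i ∈ A
  zero : (0 : V3) ∉ A
  mem : ∀ t ∈ T, v t ∈ A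
  eq : ∀ t ∈ T, ∀ r, has r t → dot (v t) r = ell A r

/-- NPAD. -/
def NpadStatement : Prop :=
  ∀ (A : Finset V3) (T : Finset Tri) (v : Tri → V3), NP A T v → Adm T (ell A) v

/-- NPEX. Existence of adapted data. -/
def NpexStatement : Prop :=
  ∀ (A : Finset V3) (T : Finset Tri), Good T → (∀ v ∈ A, ∀ w ∈ A, Cmp T (v - w)) →
    (∀ u ∈ A, ∀ i, 0 ≤ u i) → (∀ i, ∃ n : ℤ, 0 < n ∧ n • ev i ∈ A) → (0 : V3) ∉ A →
    ∃ v, NP A T v

/-- The intercept on the axis `i`. -/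
noncomputable def icpt (A : Finset V3) (i : Fin 3) : ℕ := sInf {n : ℕ | (n : ℤ) • ev i ∈ A}

/-- LPOS. Signs and boundary values of the lattice lengths. -/
def LposStatement : Prop :=
  ∀ (A : Finset V3) (T : Finset Tri) (v : Tri → V3), NP A T v →
    (∀ a b, (¬ ∃ i, a i = 0 ∧ b i = 0) → 0 ≤ Lw T v a b) ∧
    (∀ a b c i, (a, b, c) ∈ T → a i = 0 → b i = 0 →
      v (a, b, c) = (icpt A i : ℤ) • ev i ∧ Lw T v a b = -(icpt A i : ℤ)) ∧
    (∀ a b, a ∈ rays T → b ∈ rays T → (∃ i, a i = 0) → (∀ i, a ≠ ev i) → (∀ i, 0 < b i) →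
      Lw T v a b = 0) ∧
    (∀ a b, (∃ i, a i = 0) → (∃ i, b i = 0) → Lw T v a b ≠ 0 → ∃ i, a i = 0 ∧ b i = 0)

/-- ARBD. Areas of boundary rays, and the relation between the areas. -/
def ArbdStatement : Prop :=
  ∀ (A : Finset V3) (T : Finset Tri) (v : Tri → V3) (e : V3 → ℤ), NP A T v → Bal T v e →
    (∀ a ∈ rays T, (∃ i, a i = 0) → (∀ i, a ≠ ev i) → Ar T (ell A) v e a = 0) ∧
    (∀ i : Fin 3, ∑ a ∈ rays T, a i * Ar T (ell A) v e a = 0)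

/-- The compact rays with a face of positive dimension. -/
noncomputable def VV (T : Finset Tri) (v : Tri → V3) : Finset V3 := by
  classical exact (rays T).filter fun a => (∀ i, 0 < a i) ∧ ∃ b ∈ rays T, Lw T v a b ≠ 0

/-- LNKW. Two neighbours of a compact ray `a` that agree modulo `a` are equal. -/
def LnkwStatement : Prop :=
  ∀ (T : Finset Tri) (a b b' : V3) (n : ℤ), Good T → (∀ i, 0 < a i) →
    (∃ c, (a, b, c) ∈ T) → (∃ c, (a, b', c) ∈ T) → b' = b + n • a → b = b'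

/-- HGHT. Areas and heights. -/
def HghtStatement : Prop :=
  ∀ (A : Finset V3) (T : Finset Tri) (v : Tri → V3) (e : V3 → ℤ), NP A T v → Bal T v e →
    ∀ t ∈ T, Ar T (ell A) v e t.1 =
      ∑ b ∈ rays T, Lw T v t.1 b * (dot (v t) b - ell A b)

/-- The rank condition at the ray `a`. -/
def Rk (T : Finset Tri) (v : Tri → V3) (a : V3) : Prop :=
  ∃ b ∈ rays T, ∃ c ∈ rays T, Lw T v a b ≠ 0 ∧ Lw T v a c ≠ 0 ∧ det3 a b c ≠ 0

/-- STYP. The rays whose face is a segment. -/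
def StypStatement : Prop :=
  ∀ (A : Finset V3) (T : Finset Tri) (v : Tri → V3) (e : V3 → ℤ), NP A T v → Bal T v e →
    ∀ a ∈ VV T v, ¬ Rk T v a →
    ∃ w : ℤ, 0 < w ∧ (∀ b, w ∣ Lw T v a b) ∧ w ∣ e a ∧ Ar T (ell A) v e a = 0 ∧
      ∑ b ∈ rays T, Lw T v a b = 2 * w

/-- SUCC. Every vertex of the polygon of `a` lies on a second edge. -/
def SuccStatement : Prop :=
  ∀ (A : Finset V3) (T : Finset Tri) (v : Tri → V3), NP A T v → ∀ a b : V3, (∀ i, 0 < a i) →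
    (∃ c, (a, b, c) ∈ T) → Lw T v a b ≠ 0 →
    ∃ b' c', (a, b', c') ∈ T ∧ Lw T v a b' ≠ 0 ∧ b' ≠ b ∧ vE T v a b' = vE T v b a

/-- PICK. Pick's inequality for the polygon of `a`. -/
def PickStatement : Prop :=
  ∀ (A : Finset V3) (T : Finset Tri) (v : Tri → V3) (e : V3 → ℤ), NP A T v → Bal T v e →
    ∀ a ∈ VV T v, Rk T v a →
    -2 ≤ Ar T (ell A) v e a - ∑ b ∈ rays T, Lw T v a b

/-! ## Part 5. The contraction theorem -/

/-- The numbers `C_i · E_a`. -/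
def cc (S : Finset V3) (B : V3 → V3 → ℤ) (a : V3) (i : Fin 3) : ℤ := -∑ b ∈ S, B a b * b i

def D3 (S : Finset V3) (B : V3 → V3 → ℤ) (a : V3) : Prop :=
  ∀ f : V3, dot f a = 0 → (∀ b ∈ S, b ≠ a → B a b ≠ 0 → dot f b = 0) →
    (∀ i, cc S B a i ≠ 0 → f i = 0) → f = 0

structure Cfg (S : Finset V3) (B : V3 → V3 → ℤ) (w K : V3 → ℤ) : Prop where
  pos : ∀ a ∈ S, ∀ i, 1 ≤ a i
  prim : ∀ a ∈ S, ∀ (n : ℤ) (b : V3), a = n • b → n = 1 ∨ n = -1
  symm : ∀ a b, B a b = B b a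
  off : ∀ a ∈ S, ∀ b ∈ S, a ≠ b → 0 ≤ B a b
  wpos : ∀ a ∈ S, 1 ≤ w a
  dvd : ∀ a ∈ S, ∀ b ∈ S, w a ∣ B a b
  dvdK : ∀ a ∈ S, w a ∣ K a
  cpos : ∀ a ∈ S, ∀ i, 0 ≤ cc S B a i
  neg : ∀ x : V3 → ℤ, (∃ a ∈ S, x a ≠ 0) → ∑ a ∈ S, ∑ b ∈ S, B a b * x a * x b < 0
  adj : ∀ a ∈ S, -2 * w a ≤ K a + B a a
  loc : ∀ a ∈ S, D3 S B a ∨ ∑ b ∈ S with b ≠ a, B a b + ∑ i, cc S B a i = 2 * w a

/-- Twice `Ψ`. -/
def psi2 (S : Finset V3) (B : V3 → V3 → ℤ) (K : V3 → ℤ) : ℤ :=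
  2 * ∑ a ∈ S, (deg a - 3) * K a - 4 * ∑ a ∈ S, ∑ b ∈ S, B a b
    - 2 * ∑ a ∈ S, ∑ b ∈ S, B a b * (a 0 * b 1 + a 0 * b 2 + a 1 * b 2)
    - 2 * ∑ a ∈ S, ∑ i, cc S B a i + ∑ a ∈ S, ∑ b ∈ S with b ≠ a, B a b

/-- CBAS. The case of a nef canonical class. -/
def CbasStatement : Prop :=
  ∀ (S : Finset V3) (B : V3 → V3 → ℤ) (w K : V3 → ℤ), Cfg S B w K → S.Nonempty →
    (∀ a ∈ S, 0 ≤ K a) → 4 ≤ psi2 S B K

/-- CNEG. A ray with `K a < 0` is an orbit of `(-1)`-curves. -/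
def CnegStatement : Prop :=
  ∀ (S : Finset V3) (B : V3 → V3 → ℤ) (w K : V3 → ℤ), Cfg S B w K →
    ∀ a ∈ S, K a < 0 → K a = -w a ∧ B a a = -w a

/-- The intersection form after the contraction of `c`. -/
def Bct (B : V3 → V3 → ℤ) (w : V3 → ℤ) (c : V3) : V3 → V3 → ℤ :=
  fun a b => B a b + B a c * B c b / w c

/-- CCT1. Contraction preserves the elementary part of `Cfg`. -/
def Cct1Statement : Prop :=
  ∀ (S : Finset V3) (B : V3 → V3 → ℤ) (w K : V3 → ℤ) (c : V3), Cfg S B w K → c ∈ S →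
    B c c = -w c → K c = -w c →
    (∀ a b, Bct B w c a b = Bct B w c b a) ∧
    (∀ a ∈ S.erase c, ∀ b ∈ S.erase c, a ≠ b → 0 ≤ Bct B w c a b) ∧
    (∀ a ∈ S.erase c, ∀ b ∈ S.erase c, w a ∣ Bct B w c a b) ∧
    (∀ a ∈ S.erase c, w a ∣ K a - B a c) ∧
    (∀ a ∈ S.erase c, ∀ i, w c * cc (S.erase c) (Bct B w c) a i =
      w c * cc S B a i + B a c * cc S B c i) ∧
    (∀ a ∈ S.erase c, -2 * w a ≤ K a - B a c + Bct B w c a a) ∧
    (∀ x : V3 → ℤ, (∃ a ∈ S.erase c, x a ≠ 0) →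
      ∑ a ∈ S.erase c, ∑ b ∈ S.erase c, Bct B w c a b * x a * x b < 0)

/-- CCT2. Contraction preserves the local alternative. -/
def Cct2Statement : Prop :=
  ∀ (S : Finset V3) (B : V3 → V3 → ℤ) (w K : V3 → ℤ) (c : V3), Cfg S B w K → c ∈ S →
    B c c = -w c → K c = -w c → ∀ a ∈ S.erase c,
    D3 (S.erase c) (Bct B w c) a ∨
      ∑ b ∈ S.erase c with b ≠ a, Bct B w c a b + ∑ i, cc (S.erase c) (Bct B w c) a i = 2 * w a

/-- CPSI. The change of `Ψ`: if `m w c`, `γ_i w c` are the intersection numbers of the orbit `c`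
with the other curves and with the `C_i`, then `2Ψ` drops by at least `w c` times the stated
number. -/
def CpsiStatement : Prop :=
  ∀ (S : Finset V3) (B : V3 → V3 → ℤ) (w K : V3 → ℤ) (c : V3) (m : ℤ) (γ : Fin 3 → ℤ),
    Cfg S B w K → c ∈ S → B c c = -w c → K c = -w c →
    ∑ b ∈ S with b ≠ c, B c b = m * w c → (∀ i, cc S B c i = γ i * w c) →
    psi2 (S.erase c) (Bct B w c) (fun a => K a - B a c) + w c *
      ((3 * m - 5) * (m - 2) + 2 * (γ 0 + γ 1 + γ 2) * (m - 2) +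
        2 * (γ 0 * γ 1 + γ 0 * γ 2 + γ 1 * γ 2)) ≤ psi2 S B K

/-- CTRM. The drop is nonnegative. -/
def CtrmStatement : Prop :=
  ∀ (S : Finset V3) (B : V3 → V3 → ℤ) (w K : V3 → ℤ) (c : V3) (m : ℤ) (γ : Fin 3 → ℤ),
    Cfg S B w K → c ∈ S → B c c = -w c → K c = -w c →
    ∑ b ∈ S with b ≠ c, B c b = m * w c → (∀ i, cc S B c i = γ i * w c) →
    0 ≤ (3 * m - 5) * (m - 2) + 2 * (γ 0 + γ 1 + γ 2) * (m - 2) +
        2 * (γ 0 * γ 1 + γ 0 * γ 2 + γ 1 * γ 2) ∧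
    (m = 0 → 4 ≤ (3 * m - 5) * (m - 2) + 2 * (γ 0 + γ 1 + γ 2) * (m - 2) +
        2 * (γ 0 * γ 1 + γ 0 * γ 2 + γ 1 * γ 2))

/-- CTHM. The contraction theorem. -/
def CthmStatement : Prop :=
  ∀ (S : Finset V3) (B : V3 → V3 → ℤ) (w K : V3 → ℤ), Cfg S B w K → S.Nonempty →
    4 ≤ psi2 S B K

/-- NEGD. Negative definiteness. -/
def NegdStatement : Prop :=
  ∀ (S : Finset V3) (B : V3 → V3 → ℤ), (∀ a ∈ S, ∀ i, 1 ≤ a i) → (∀ a b, B a b = B b a) →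
    (∀ a ∈ S, ∀ b ∈ S, a ≠ b → 0 ≤ B a b) → (∀ a ∈ S, ∀ i, 0 ≤ cc S B a i) →
    (∀ a ∈ S, ∀ b ∈ S, a ≠ b → B a b ≠ 0 → cross a b ≠ 0) →
    (∀ a ∈ S, (∃ b ∈ S, b ≠ a ∧ B a b ≠ 0) ∨ ∃ i, cc S B a i ≠ 0) →
    ∀ x : V3 → ℤ, (∃ a ∈ S, x a ≠ 0) → ∑ a ∈ S, ∑ b ∈ S, B a b * x a * x b < 0

/-! ## Part 6. The inequality -/

open Classical in
/-- The intersection form of the Newton polyhedron. -/
noncomputable def BN (T : Finset Tri) (v : Tri → V3) (e : V3 → ℤ) (a b : V3) : ℤ :=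
  if a = b then -e a else Lw T v a b

/-- `K · E_a`. -/
noncomputable def KN (A : Finset V3) (T : Finset Tri) (v : Tri → V3) (e : V3 → ℤ) (a : V3) : ℤ :=
  Ar T (ell A) v e a - ∑ b ∈ rays T, Lw T v a b + e a

/-- AXNB. The neighbour of `e_j` in the coordinate plane `x_k = 0`. -/
def AxnbStatement : Prop :=
  ∀ (T : Finset Tri), Good T → ∀ i j k : Fin 3, i ≠ j → j ≠ k → i ≠ k →
    ∃ b ∈ rays T, b i = 1 ∧ b k = 0 ∧ ((∃ c, (ev j, b, c) ∈ T) ∨ ∃ c, (b, ev j, c) ∈ T) ∧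
      ∀ b', b' k = 0 → ((∃ c, (ev j, b', c) ∈ T) ∨ ∃ c, (b', ev j, c) ∈ T) → b' = b

/-- CCNP. The numbers `C_i · E_a` of the Newton polyhedron. -/
def CcnpStatement : Prop :=
  ∀ (A : Finset V3) (T : Finset Tri) (v : Tri → V3) (e : V3 → ℤ), NP A T v → Bal T v e →
    (∀ a ∈ VV T v, ∀ i, cc (VV T v) (BN T v e) a i = Lw T v a (ev i)) ∧
    (∀ a ∈ VV T v, ∑ b ∈ rays T, Lw T v a b =
      ∑ b ∈ VV T v with b ≠ a, BN T v e a b + ∑ i, Lw T v a (ev i)) ∧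
    (∀ i j k : Fin 3, i ≠ j → j ≠ k → i ≠ k →
      ∑ a ∈ VV T v, a i * Lw T v a (ev j) = icpt A k)

/-- CFGN. The Newton polyhedron gives a configuration. -/
def CfgnStatement : Prop :=
  ∀ (A : Finset V3) (T : Finset Tri) (v : Tri → V3) (e : V3 → ℤ), NP A T v → Bal T v e →
    (VV T v).Nonempty ∧ ∃ w : V3 → ℤ, Cfg (VV T v) (BN T v e) w (KN A T v e)

/-- PSIN. The identity `2(μ - 6p) + 2 = Ψ`. -/
def PsinStatement : Prop :=
  ∀ (A : Finset V3) (T : Finset Tri) (v : Tri → V3) (e : V3 → ℤ), NP A T v → Bal T v e →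
    (psi2 (VV T v) (BN T v e) (KN A T v e) : ℝ) =
      4 * (∑ a ∈ rays T, (ell A a : ℝ) * Ar T (ell A) v e a +
        ∑ i : Fin 3, (Ar T (ell A) v e (ev i) : ℝ) + ∑ i : Fin 3, (icpt A i : ℝ) - 1) -
        24 * ((BB T (ell A)).ncard : ℝ) + 4

/-- COMB. The combinatorial inequality. -/
def CombStatement : Prop :=
  ∀ (A : Finset V3) (T : Finset Tri) (v : Tri → V3) (e : V3 → ℤ), NP A T v → Bal T v e →
    6 * ((BB T (ell A)).ncard : ℝ) ≤ ∑ a ∈ rays T, (ell A a : ℝ) * Ar T (ell A) v e a +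
      ∑ i : Fin 3, (Ar T (ell A) v e (ev i) : ℝ) + ∑ i : Fin 3, (icpt A i : ℝ) - 1

/-! ## Part 7. Volumes -/

/-- The Newton polyhedron. -/
def PA (A : Finset V3) : Set E3 :=
  convexHull ℝ ((fun (u : V3) (i : Fin 3) => (u i : ℝ)) '' (A : Set V3)) + {x : E3 | ∀ i, 0 ≤ x i}

/-- BRGA. The Newton polyhedron is cut out by the rays. -/
def BrgaStatement : Prop :=
  ∀ (A : Finset V3) (T : Finset Tri) (v : Tri → V3), NP A T v → ∀ x : E3,
    x ∈ PA A ↔ ∀ r ∈ rays T, (ell A r : ℝ) ≤ rd r x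

/-- BRGB. The interior. -/
def BrgbStatement : Prop :=
  ∀ (A : Finset V3) (T : Finset Tri) (v : Tri → V3), NP A T v → ∀ x : E3,
    x ∈ interior (PA A) ↔ ∀ r ∈ rays T, (ell A r : ℝ) < rd r x

open MeasureTheory in
/-- VOLU. The volume below the Newton boundary. -/
def VoluStatement : Prop :=
  ∀ (A : Finset V3) (T : Finset Tri) (v : Tri → V3) (e : V3 → ℤ), NP A T v → Bal T v e →
    6 * volume.real {x : E3 | (∀ i, 0 ≤ x i) ∧ x ∉ PA A} =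
      ∑ a ∈ rays T, (ell A a : ℝ) * Ar T (ell A) v e a

/-- The pyramid over the Newton polygon in the coordinate plane `x_i = 0`. -/
def pyr (A : Finset V3) (i : Fin 3) : Finset V3 := insert (ev i) (A.filter fun u => u i = 0)

/-- PYRA. -/
def PyraStatement : Prop :=
  ∀ (A : Finset V3) (T : Finset Tri) (v v' : Tri → V3) (e e' : V3 → ℤ) (i : Fin 3),
    NP A T v → Bal T v e → NP (pyr A i) T v' → Bal T v' e' →
    ∑ a ∈ rays T, ell (pyr A i) a * Ar T (ell (pyr A i)) v' e' a = -Ar T (ell A) v e (ev i)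

/-- PYRB. -/
def PyrbStatement : Prop :=
  ∀ (A : Finset V3) (i : Fin 3), (∀ u ∈ A, ∀ i, 0 ≤ u i) →
    (∀ i, ∃ n : ℤ, 0 < n ∧ n • ev i ∈ A) → ∀ x : E3, (∀ j, 0 ≤ x j) → x i < 1 →
    (x ∈ PA (pyr A i) ↔
      (fun j => if j = i then 0 else x j / (1 - x i)) ∈ PA A)

open MeasureTheory in
/-- PYRC. -/
def PyrcStatement : Prop :=
  ∀ (A : Finset V3) (i : Fin 3), (∀ u ∈ A, ∀ i, 0 ≤ u i) →
    (∀ i, ∃ n : ℤ, 0 < n ∧ n • ev i ∈ A) →
    3 * volume.real {x : E3 | (∀ j, 0 ≤ x j) ∧ x ∉ PA (pyr A i)} =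
      volume.real {y : Fin 2 → ℝ | (∀ j, 0 ≤ y j) ∧ i.insertNth (0 : ℝ) y ∉ PA A}

open MeasureTheory in
/-- AXIS. -/
def AxisStatement : Prop :=
  ∀ (A : Finset V3) (i : Fin 3), (∀ u ∈ A, ∀ i, 0 ≤ u i) →
    (∀ i, ∃ n : ℤ, 0 < n ∧ n • ev i ∈ A) →
    volume.real {t : ℝ | 0 ≤ t ∧ (Pi.single i t : E3) ∉ PA A} = icpt A i

open MeasureTheory in
/-- Kouchnirenko's Newton number of a polyhedron in the positive octant. -/
noncomputable def newtonNumber (P : Set E3) : ℝ :=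
  6 * volume.real {x : E3 | (∀ i, 0 ≤ x i) ∧ x ∉ P}
    - 2 * ∑ i : Fin 3, volume.real {y : Fin 2 → ℝ | (∀ j, 0 ≤ y j) ∧ i.insertNth (0 : ℝ) y ∉ P}
    + ∑ i : Fin 3, volume.real {t : ℝ | 0 ≤ t ∧ (Pi.single i t : E3) ∉ P} - 1

/-- FINL. The theorem. -/
def FinlStatement : Prop :=
  ∀ A : Finset (Fin 3 → ℕ), (∀ i, ∃ n : ℕ, Pi.single i n ∈ A) → (0 : Fin 3 → ℕ) ∉ A →
    let P : Set E3 := convexHull ℝ ((fun (u : Fin 3 → ℕ) (i : Fin 3) => (u i : ℝ)) ''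
      (A : Set (Fin 3 → ℕ))) + {x : E3 | ∀ i, 0 ≤ x i}
    6 * ({m : Fin 3 → ℕ | (∀ i, 0 < m i) ∧ (fun i => (m i : ℝ)) ∉ interior P}.ncard : ℝ) ≤
      newtonNumber P

end Pool.Agent.DUR
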